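import Pool.Agent.Helper60.T3.GoalsI
import Pool.Agent.Helper30.SGT.NZ1
import Pool.Agent.Helper24.SGB.LAWMAP
import Pool.Agent.Helper12.SGB.All

/-!
# Project T3 (MP_a41896_nt), packet DIV: division of points by `2 ^ e`
-/

set_option autoImplicit false

namespace Pool.Agent.Helper38.T3.DIV

open WeierstrassCurve Polynomial
open Pool.Agent.Helper29.BL Pool.Agent.Helper42.SG Pool.Agent.Helper60.T3

theorem mem_range_of_root {κ L : Type} [Field κ] [IsAlgClosed κ] [Field L] [Algebra κ L]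
    (z : L) (f : κ[X]) (hf : f.Monic) (h0 : aeval z f = 0) :
    z ∈ Set.range (algebraMap κ L) := by
  have hint : IsIntegral κ z := ⟨f, hf, by rw [← aeval_def]; exact h0⟩
  have h1 := minpoly.irreducible hint
  have h2 := IsAlgClosed.degree_eq_one_of_irreducible κ h1
  exact minpoly.mem_range_of_degree_eq_one κ z h2

theorem t : S_DIV := by
  intro k κ L _ _ _ _ _ _ _ _ _ _ _ W _ e w hw h2w
  haveI : CharZero κ := charZero_of_injective_algebraMap (algebraMap k κ).injective
  haveI : CharZero L := charZero_of_injective_algebraMap (algebraMap k L).injective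
  have hw0 : w ≠ 0 := by
    rintro rfl
    exact h2w (smul_zero 2)
  obtain ⟨P, hP0, hPw, -⟩ := Pool.Agent.Helper30.SGT.t_NZ1 Pool.Agent.Helper12.SGB.th_RPOL
    Pool.Agent.Helper12.SGB.th_EDUP L (WL L W) w e 1 h2w one_ne_zero (by simp)
  refine ⟨P, hP0, hPw, Or.inr ?_⟩
  obtain ⟨-, -, hE, -⟩ := Pool.Agent.Helper12.SGB.th_EDUP L (WL L W) P e hP0
  rw [hPw] at hE
  have hE := hE hw0
  obtain ⟨u, hu⟩ : xc w ∈ Set.range (algebraMap κ L) := by
    rcases hw with h | h
    · exact absurd h hw0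
    · exact h.1
  obtain ⟨V, hV⟩ : ∃ V : WeierstrassCurve κ, V = WeierstrassCurve.map W (algebraMap k κ) :=
    ⟨_, rfl⟩
  have hmapV : WeierstrassCurve.map V (algebraMap κ L) = WL L W := by
    rw [hV, WeierstrassCurve.map_map, ← IsScalarTower.algebraMap_eq]
  have hps : ps P ^ 2 = Bf (WL L W) (xc P) := by
    rcases P with _ | ⟨x, y, h⟩
    · exact absurd rfl hP0
    · exact Pool.Agent.Helper30.SGB.ps_sq (WL L W) x y h
  obtain ⟨z, hz⟩ : ∃ z : L, z = xc P := ⟨_, rfl⟩
  obtain ⟨v, hv⟩ : ∃ v : L, v = xc w := ⟨_, rfl⟩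
  rw [← hz, ← hv] at hE
  rw [← hz] at hps
  rw [← hv] at hu
  rw [← hz]
  -- the `x`-coordinate
  have hx : z ∈ Set.range (algebraMap κ L) := by
    obtain ⟨m1, m2, m3⟩ := Pool.Agent.Helper30.SGT.deg_Ph V e
    have hmon : ((Ph (WeierstrassCurve.map V C) e X).1 -
        C u * (Ph (WeierstrassCurve.map V C) e X).2).Monic := by
      apply m1.sub_of_left
      apply Polynomial.degree_lt_degree
      rw [m2]
      exact lt_of_le_of_lt (Polynomial.natDegree_C_mul_le _ _) (by omega)
    apply mem_range_of_root z _ hmon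
    have hk := Pool.Agent.Helper24.SGB.Ph_map (aeval z : κ[X] →ₐ[κ] L).toRingHom
      (WeierstrassCurve.map V C) e X
    have hcomp : WeierstrassCurve.map (WeierstrassCurve.map V C)
        (aeval z : κ[X] →ₐ[κ] L).toRingHom = WL L W := by
      rw [WeierstrassCurve.map_map, ← hmapV]
      congr 1
      ext a
      simp
    have hX : (aeval z : κ[X] →ₐ[κ] L).toRingHom X = z := by simp
    rw [hcomp, hX] at hk
    have k1 : (aeval z) (Ph (WeierstrassCurve.map V C) e X).1 = (Ph (WL L W) e z).1 :=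
      (congrArg Prod.fst hk).symm
    have k2 : (aeval z) (Ph (WeierstrassCurve.map V C) e X).2 = (Ph (WL L W) e z).2 :=
      (congrArg Prod.snd hk).symm
    rw [map_sub, map_mul, aeval_C, k1, k2, hE, hu, sub_self]
  obtain ⟨x0, hx0⟩ := hx
  refine ⟨⟨x0, hx0⟩, ?_⟩
  -- the `ψ`-coordinate
  have hB : Bf (WL L W) z = algebraMap κ L (Bf V x0) := by
    rw [← hmapV, ← hx0]
    simp only [Bf, WeierstrassCurve.map_b₂, WeierstrassCurve.map_b₄, WeierstrassCurve.map_b₆,
      map_add, map_mul, map_pow, map_ofNat]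
  apply mem_range_of_root (ps P) (X ^ 2 - C (Bf V x0)) (monic_X_pow_sub_C _ two_ne_zero)
  simp only [map_sub, map_pow, aeval_X, aeval_C, hps, hB, sub_self]

end Pool.Agent.Helper38.T3.DIV
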